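import Mathlib

namespace Pool.Agent.H.MP_42b5d3_al
open Function nonZeroDivisors

def TT {R : Type} [Ring R] (I : Ideal R) (M : Type) [AddCommGroup M] [Module R M] :
    Submodule R M where
  carrier := {x | ∃ e ∈ I, (∀ r, e * r = r * e) ∧ e • x = x}
  zero_mem' := ⟨0, zero_mem _, by simp, smul_zero _⟩
  add_mem' := by
    rintro x y ⟨e, e1, e2, e3⟩ ⟨g, g1, g2, g3⟩
    refine ⟨e + g - e * g, sub_mem (add_mem e1 g1) (I.mul_mem_left _ g1), fun r => ?_, ?_⟩
    · rw [sub_mul, add_mul, mul_sub, mul_add, e2 r, g2 r, mul_assoc, g2 r, ← mul_assoc, e2 r,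
        mul_assoc]
    · rw [smul_add, sub_smul, sub_smul, add_smul, add_smul, e3, g3, e2 g, mul_smul, e3, ← e2 g,
        mul_smul, g3]
      abel
  smul_mem' := by
    rintro r x ⟨e, e1, e2, e3⟩
    exact ⟨e, e1, e2, by rw [← mul_smul, e2, mul_smul, e3]⟩

theorem orzech {R : Type} [Ring R]
    (h : ∀ a : R, ∃ v, (∀ r, v * a * r = r * (v * a)) ∧ v * a * a = a) : OrzechProperty R := by
  refine ⟨fun {M} _ _ _ N f hf => ?_⟩
  let _ := Module.addCommMonoidToAddCommGroup R (M := M)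
  refine (injective_iff_map_eq_zero f).2 fun n hn => by_contra fun h0 => ?_
  obtain ⟨I, hI, hle⟩ := Ideal.exists_le_maximal (LinearMap.ker (LinearMap.toSpanSingleton R N n))
    (fun e => h0 (by simpa using (Ideal.eq_top_iff_one _).1 e))
  have := isSimpleModule_iff_isCoatom.2 hI.out
  obtain ⟨k, φ, hφ⟩ := Module.Finite.exists_fin' R M
  have hT : ∀ x : M, I ≤ LinearMap.ker ((TT I M).mkQ ∘ₗ LinearMap.toSpanSingleton R M x) := by
    intro x a ha
    obtain ⟨v, v1, v2⟩ := h a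
    exact (Submodule.Quotient.mk_eq_zero _).2
      ⟨v * a, I.mul_mem_left v ha, v1, show (v * a) • a • x = a • x by rw [← mul_smul, v2]⟩
  have : IsNoetherian R (M ⧸ TT I M) := by
    refine isNoetherian_of_surjective (M := Fin k → R ⧸ I) (LinearMap.lsum R _ ℕ fun i =>
      I.liftQ _ (hT (φ (Pi.single i 1)))) (LinearMap.range_eq_top.2 fun y => ?_)
    obtain ⟨y, rfl⟩ := (TT I M).mkQ_surjective y
    obtain ⟨y, rfl⟩ := hφ y
    refine ⟨fun i => Submodule.Quotient.mk (y i), ?_⟩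
    conv_rhs => rw [pi_eq_sum_univ' y]
    simp
  have hi := IsNoetherian.injective_of_surjective_of_injective
    ((TT I N).mapQ (TT I M) N.subtype fun x ⟨e, e1, e2, e3⟩ => ⟨e, e1, e2, congrArg Subtype.val e3⟩)
    ((TT I N).mapQ (TT I M) f fun x ⟨e, e1, e2, e3⟩ => ⟨e, e1, e2, by rw [← map_smul, e3]⟩)
    (by
      rw [injective_iff_map_eq_zero]
      intro x hx
      obtain ⟨x, rfl⟩ := (TT I N).mkQ_surjective x
      obtain ⟨e, e1, e2, e3⟩ := (Submodule.Quotient.mk_eq_zero _).1 hx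
      exact (Submodule.Quotient.mk_eq_zero _).2 ⟨e, e1, e2, Subtype.ext e3⟩)
    (fun y => by
      obtain ⟨y, rfl⟩ := (TT I M).mkQ_surjective y
      obtain ⟨y, rfl⟩ := hf y
      exact ⟨Submodule.Quotient.mk y, rfl⟩)
  obtain ⟨e, e1, -, e3⟩ := (Submodule.Quotient.mk_eq_zero _).1
    ((injective_iff_map_eq_zero _).1 hi (Submodule.Quotient.mk n) (by simp [hn]))
  exact hI.ne_top ((Ideal.eq_top_iff_one _).2 (by
    simpa using add_mem e1 (hle (show 1 - e ∈ _ by simp [sub_smul, e3]))))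

theorem up_ext {G Q : Type} [Group G] [Group Q] (φ : G →* Q) [UniqueProds Q] [UniqueProds φ.ker] :
    UniqueProds G := by
  classical
  refine ⟨fun {A B} hA hB => ?_⟩
  obtain ⟨_, h1, _, h2, h⟩ := UniqueProds.uniqueMul_of_nonempty (hA.image φ) (hB.image φ)
  obtain ⟨a, ha, rfl⟩ := Finset.mem_image.1 h1
  obtain ⟨b, hb, rfl⟩ := Finset.mem_image.1 h2
  obtain ⟨n, hn, n', hn', k⟩ := UniqueProds.uniqueMul_of_nonempty
    (A := A.preimage (fun n : φ.ker => a * n) fun _ _ _ _ h => Subtype.ext (mul_left_cancel h))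
    (B := B.preimage (fun n : φ.ker => n * b) fun _ _ _ _ h => Subtype.ext (mul_right_cancel h))
    ⟨1, Finset.mem_preimage.2 (by simpa)⟩ ⟨1, Finset.mem_preimage.2 (by simpa)⟩
  refine ⟨a * n, (Finset.mem_preimage.1 hn :), n' * b, (Finset.mem_preimage.1 hn' :),
    fun a' b' ha' hb' e => ?_⟩
  obtain ⟨e1, e2⟩ := h (Finset.mem_image_of_mem φ ha') (Finset.mem_image_of_mem φ hb') (by
    simpa [MonoidHom.mem_ker.1 n.2, MonoidHom.mem_ker.1 n'.2] using congrArg φ e)
  obtain ⟨f1, f2⟩ := k (a := ⟨a⁻¹ * a', by simp [e1]⟩) (b := ⟨b' * b⁻¹, by simp [e2]⟩)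
    (Finset.mem_preimage.2 (by simpa)) (Finset.mem_preimage.2 (by simpa)) (Subtype.ext (by
      change a⁻¹ * a' * (b' * b⁻¹) = n * n'
      rw [mul_assoc, ← mul_assoc a', e]; group))
  rw [← f1, ← f2]
  simp

theorem ore {G H : Type} [Group G] [CommGroup H] [UniqueProds G] (ψ : H →* G) (hψ : Injective ψ)
    (F : Set G) (hF : F.Finite) (h : ∀ g, ∃ c, ∃ r ∈ F, g = ψ c * r) :
    Nonempty (OreLocalization.OreSet (MonoidAlgebra ℚ G)⁰) := by
  let ι := MonoidAlgebra.mapDomainRingHom ℚ ψ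
  have hι : Injective ι := MonoidAlgebra.mapDomain_injective hψ
  let _ : Module (MonoidAlgebra ℚ H) (MonoidAlgebra ℚ G) := Module.compHom _ ι
  have hs : ∀ (c : MonoidAlgebra ℚ H) (a : MonoidAlgebra ℚ G), c • a = ι c * a := fun _ _ => rfl
  have : Module.Finite (MonoidAlgebra ℚ H) (MonoidAlgebra ℚ G) := by
    refine ⟨Submodule.fg_def.2 ⟨_, hF.image fun r => MonoidAlgebra.single r 1, eq_top_iff.2 ?_⟩⟩
    rintro a -
    induction a using MonoidAlgebra.induction_linear with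
    | zero => exact zero_mem _
    | add a b ha hb => exact add_mem ha hb
    | single g q =>
      obtain ⟨c, r, hr, rfl⟩ := h g
      have : MonoidAlgebra.single (ψ c * r) q =
          MonoidAlgebra.single c q • (MonoidAlgebra.single r 1 : MonoidAlgebra ℚ G) := by
        simp [hs, ι, MonoidAlgebra.single_mul_single]
      exact this ▸ Submodule.smul_mem _ _ (Submodule.subset_span ⟨r, hr, rfl⟩)
  rw [OreLocalization.nonempty_oreSet_iff_of_noZeroDivisors]
  intro r s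
  by_contra hc
  push Not at hc
  let L : (MonoidAlgebra ℚ G × MonoidAlgebra ℚ G) →ₗ[MonoidAlgebra ℚ H] MonoidAlgebra ℚ G :=
    ⟨⟨fun p => p.1 * r - p.2 * s, fun p q => by simp [add_mul]; abel⟩,
      fun c p => by simp [hs, mul_sub, mul_assoc]⟩
  have hL : Injective L := (injective_iff_map_eq_zero L).2 fun p hp => by
    have hp' : p.1 * r = p.2 * s := sub_eq_zero.1 hp
    by_cases h1 : p.1 = 0
    · rw [h1, zero_mul] at hp'
      exact Prod.ext h1 ((mul_eq_zero.1 hp'.symm).resolve_right (nonZeroDivisors.ne_zero s.2))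
    · exact (hc p.2 ⟨p.1, mem_nonZeroDivisors_of_ne_zero h1⟩ hp').elim
  have h1 := (rank_add_rank_le_rank_prod _ _).trans (L.rank_le_of_injective hL)
  have h2 := (LinearMap.toSpanSingleton (MonoidAlgebra ℚ H) (MonoidAlgebra ℚ G) 1).rank_le_of_injective
    fun a b e => hι (by simpa [hs] using e)
  obtain ⟨n, hn⟩ := Cardinal.lt_aleph0.1
    (Module.rank_lt_aleph0 (MonoidAlgebra ℚ H) (MonoidAlgebra ℚ G))
  rw [Module.rank_self, hn] at h2
  rw [hn] at h1
  norm_cast at h1 h2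
  omega

@[ext] structure Gm (m : ℕ) : Type where
  e : ZMod m → ℤ
  f : ZMod m → ℤ
  k : ℤ

variable {m : ℕ}

instance : Mul (Gm m) := ⟨fun a b => ⟨fun j => a.e j + (a.f j).negOnePow * b.e (j - a.k),
  fun j => a.f j + b.f (j - a.k), a.k + b.k⟩⟩
instance : One (Gm m) := ⟨⟨0, 0, 0⟩⟩
instance : Inv (Gm m) := ⟨fun a => ⟨fun j => -((a.f (j + a.k)).negOnePow * a.e (j + a.k)),
  fun j => -a.f (j + a.k), -a.k⟩⟩

@[simp] theorem mul_e (a b : Gm m) (j) :
    (a * b).e j = a.e j + (a.f j).negOnePow * b.e (j - a.k) := rfl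
@[simp] theorem mul_f (a b : Gm m) (j) : (a * b).f j = a.f j + b.f (j - a.k) := rfl
@[simp] theorem mul_k (a b : Gm m) : (a * b).k = a.k + b.k := rfl
@[simp] theorem one_e : (1 : Gm m).e = 0 := rfl
@[simp] theorem one_f : (1 : Gm m).f = 0 := rfl
@[simp] theorem one_k : (1 : Gm m).k = 0 := rfl
@[simp] theorem inv_e (a : Gm m) (j) :
    a⁻¹.e j = -((a.f (j + a.k)).negOnePow * a.e (j + a.k)) := rfl
@[simp] theorem inv_f (a : Gm m) (j) : a⁻¹.f j = -a.f (j + a.k) := rfl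
@[simp] theorem inv_k (a : Gm m) : a⁻¹.k = -a.k := rfl

instance : Group (Gm m) := Group.ofLeftAxioms
  (fun a b c => by ext <;> simp [Int.negOnePow_add, sub_sub, mul_add, add_assoc, mul_assoc])
  (fun a => by ext <;> simp) (fun a => by ext <;> simp)

instance : UniqueProds (Gm m) := by
  let φ : Gm m →* Multiplicative ℤ := ⟨⟨fun a => .ofAdd a.k, rfl⟩, fun _ _ => rfl⟩
  have hk : ∀ a : φ.ker, a.1.k = 0 := fun a => a.2
  let χ : φ.ker →* Multiplicative (ZMod m → ℤ) := ⟨⟨fun a => .ofAdd a.1.f, rfl⟩, fun a b => by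
    rw [← ofAdd_add]; ext; simp [hk]⟩
  have hf : ∀ a : χ.ker, a.1.1.f = 0 := fun a => a.2
  have : UniqueProds χ.ker := UniqueProds.of_injective_mulHom (G := Multiplicative (ZMod m → ℤ))
    ⟨fun a => .ofAdd a.1.1.e, fun a b => by rw [← ofAdd_add]; congr 1; ext; simp [hk, hf]⟩
    (fun a b h => Subtype.ext (Subtype.ext (Gm.ext h (by rw [hf, hf]) (by rw [hk, hk]))))
    inferInstance
  have := up_ext χ
  exact up_ext φ

noncomputable instance (i : ℕ) : OreLocalization.OreSet (MonoidAlgebra ℚ (Gm (i + 1)))⁰ :=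
  Classical.choice <| ore (H := Multiplicative ((ZMod (i + 1) → ℤ) × (ZMod (i + 1) → ℤ) × ℤ))
    ⟨⟨fun c => ⟨c.toAdd.1, fun j => 2 * c.toAdd.2.1 j, (i + 1 : ℕ) * c.toAdd.2.2⟩,
      by ext <;> simp⟩, fun a b => by ext <;> simp [-Nat.cast_add, mul_add]⟩
    (fun a b h => by
      have h1 := congrArg Gm.e h
      have h2 := congrArg Gm.f h
      have h3 := congrArg Gm.k h
      exact Multiplicative.toAdd.injective (Prod.ext h1 (Prod.ext (funext fun j =>
        mul_left_cancel₀ two_ne_zero (congrFun h2 j)) (mul_left_cancel₀ (by omega) h3))))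
    ((fun p : (ZMod (i + 1) → ℤ) × ℤ => ⟨0, p.1, p.2⟩) ''
      ((Set.univ.pi fun _ => Set.Ico (0 : ℤ) 2) ×ˢ Set.Ico (0 : ℤ) (i + 1 : ℕ)))
    ((Set.Finite.pi fun _ => Set.finite_Ico _ _).prod (Set.finite_Ico _ _) |>.image _)
    fun g => ⟨.ofAdd (g.e, fun j => g.f j / 2, g.k / (i + 1 : ℕ)), _,
      ⟨(fun j => g.f j % 2, g.k % (i + 1 : ℕ)), ⟨fun j _ => by simp only [Set.mem_Ico]; omega,
        Int.emod_nonneg _ (by omega), Int.emod_lt_of_pos _ (by omega)⟩, rfl⟩,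
      by ext <;> simp [-Nat.cast_add, Int.mul_ediv_add_emod]⟩

abbrev D (i : ℕ) : Type :=
  OreLocalization (MonoidAlgebra ℚ (Gm (i + 1)))⁰ (MonoidAlgebra ℚ (Gm (i + 1)))

noncomputable def em (i : ℕ) : Gm (i + 1) →* D i :=
  (OreLocalization.numeratorRingHom (S := (MonoidAlgebra ℚ (Gm (i + 1)))⁰)).toMonoidHom.comp
    (MonoidAlgebra.of ℚ _)

theorem em_inj (i : ℕ) : Injective (em i) :=
  (OreLocalization.numeratorHom_inj (S := (MonoidAlgebra ℚ (Gm (i + 1)))⁰)
    fun _ h => h.1).comp MonoidAlgebra.of_injective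

def gx (i : ℕ) : Gm (i + 1) := ⟨Pi.single (i : ZMod (i + 1)) 1, 0, 0⟩
def gs (i n : ℕ) : Gm (i + 1) := ⟨0, Pi.single (n : ZMod (i + 1)) 1, 0⟩
def gt (i : ℕ) : Gm (i + 1) := ⟨0, 0, 1⟩

theorem gs_succ (i n : ℕ) : gs i (n + 1) = gt i * gs i n * (gt i)⁻¹ := by
  ext <;> simp [gs, gt, Pi.single_apply, sub_eq_iff_eq_add]

theorem comm_iff {i n : ℕ} (h : n ≤ i) : gx i * gs i n = gs i n * gx i ↔ n < i := by
  constructor
  · intro e
    refine h.lt_of_ne ?_
    rintro rfl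
    simpa [gx, gs] using congrFun (congrArg Gm.e e) n
  · intro h'
    have : (i : ZMod (i + 1)) ≠ n := fun e => by
      have := congrArg ZMod.val e
      rw [ZMod.val_cast_of_lt (by omega), ZMod.val_cast_of_lt (by omega)] at this
      omega
    ext j <;> simp [gx, gs]
    by_cases hj : j = i
    · simp [hj, this]
    · simp [hj]

end Pool.Agent.H.MP_42b5d3_al
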